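import Pool.Agent.helper33.PG.Spec

/-!
# PG, row TOP: degree and leading coefficient of `S`
-/

set_option autoImplicit false

namespace Pool.Agent.PG

open Polynomial Finset

theorem TOP_one : (1 - X : ℤ[X]).natDegree ≤ 1 := by
  refine (natDegree_sub_le _ _).trans ?_
  simp

theorem TOP_pow_deg (M : ℕ) : ((1 - X : ℤ[X]) ^ M).natDegree ≤ M := by
  refine (natDegree_pow_le_of_le M TOP_one).trans ?_
  omega

theorem TOP_pow_coeff (M : ℕ) : ((1 - X : ℤ[X]) ^ M).coeff M = (-1) ^ M := by
  have h := coeff_pow_of_natDegree_le (m := M) TOP_one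
  rw [mul_one] at h
  rw [h, coeff_sub, coeff_X_one, coeff_one]
  norm_num

theorem TOP_G_deg (q a b : ℕ) : (G q a b).natDegree ≤ q - a - 1 := by
  unfold G
  refine natDegree_sum_le_of_forall_le _ _ fun j hj => ?_
  rw [mem_range] at hj
  refine (natDegree_C_mul_X_pow_le _ _).trans ?_
  omega

theorem TOP_G_coeff (q a b : ℕ) (h : a < q) : (G q a b).coeff (q - a - 1) = gco q a b (q - a - 1) := by
  unfold G
  rw [finset_sum_coeff]
  rw [sum_eq_single (q - a - 1)]
  · rw [coeff_C_mul_X_pow, if_pos rfl]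
  · intro j _ hj
    rw [coeff_C_mul_X_pow, if_neg (fun h => hj h.symm)]
  · intro hj
    exact absurd (mem_range.2 (by omega)) hj

theorem TOP : TOP_stmt := by
  intro q a b hq
  have hM : q + b = (a + b + 1) + (q - a - 1) := by omega
  have h1 := TOP_pow_deg (a + b + 1)
  have h2 := TOP_G_deg q a b
  constructor
  · unfold S
    refine natDegree_mul_le.trans ?_
    omega
  · unfold S
    rw [hM, coeff_mul_add_eq_of_natDegree_le h1 h2, TOP_pow_coeff, TOP_G_coeff q a b hq]
    refine mul_ne_zero (pow_ne_zero _ (by norm_num)) ?_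
    unfold gco
    have e : q - 1 - (q - a - 1) = a := by omega
    rw [e, Nat.choose_self, Nat.cast_one, mul_one]
    exact_mod_cast (Nat.choose_pos (Nat.le_add_right _ _)).ne'

end Pool.Agent.PG
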